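import Pool.Agent.Helper52.BP.Sheet

/-! Row VCA of the sheet `Pool.Agent.Helper52.BP.Sheet` (Sauer-Shelah). -/

set_option autoImplicit false

namespace Pool.Helper52.BP

open Finset

namespace VCA

lemma small_subsets {α : Type*} [DecidableEq α] (S : Finset α) (d : ℕ) :
    (S.powerset.filter (fun s => s.card ≤ d)).card ≤ (S.card + 1) ^ d := by
  have h1 : S.powerset.filter (fun s => s.card ≤ d) ⊆
      (range (d + 1)).biUnion (fun k => S.powersetCard k) := by
    intro s hs
    simp only [mem_filter, mem_powerset] at hs
    simp only [mem_biUnion, mem_range, mem_powersetCard]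
    exact ⟨s.card, by omega, hs.1, rfl⟩
  refine (card_le_card h1).trans (card_biUnion_le.trans ?_)
  rw [add_pow]
  refine sum_le_sum fun k hk => ?_
  rw [card_powersetCard, one_pow, mul_one]
  have h2 : 1 ≤ d.choose k := Nat.choose_pos (by simpa [Nat.lt_succ_iff] using hk)
  calc S.card.choose k ≤ S.card ^ k := Nat.choose_le_pow _ _
    _ ≤ S.card ^ k * d.choose k := Nat.le_mul_of_pos_right _ h2

end VCA

open VCA in
theorem st_VCA : ST_VCA := by
  classical
  intro n m d W hI
  set F : Finset (Finset (Fin n)) := (range m).image W with hF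
  set tr : Fin n → Finset (Finset (Fin n)) := fun v => F.filter (fun X => v ∈ X) with htr
  set A : Finset (Finset (Finset (Fin n))) := univ.image tr with hA
  have h1 : na W m ≤ A.card := by
    have : univ.image (fun v : Fin n => (range m).filter (fun i => v ∈ W i)) =
        A.image (fun t => (range m).filter (fun i => W i ∈ t)) := by
      rw [hA, image_image]
      refine image_congr fun v _ => ?_
      ext i
      simp only [Function.comp, htr, mem_filter, mem_range]
      constructor
      · rintro ⟨hi, hv⟩
        exact ⟨hi, mem_image_of_mem W (mem_range.2 hi), hv⟩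
      · rintro ⟨hi, _, hv⟩
        exact ⟨hi, hv⟩
    unfold na
    rw [this]
    exact card_image_le
  have h2 : A.shatterer ⊆ F.powerset.filter (fun s => s.card ≤ d) := by
    intro s hs
    rw [mem_shatterer] at hs
    have hsub : s ⊆ F := by
      obtain ⟨u, hu, hsu⟩ := hs (Subset.refl s)
      obtain ⟨v, _, rfl⟩ := mem_image.1 hu
      have : s ⊆ tr v := inter_eq_left.1 hsu
      exact this.trans (filter_subset _ _)
    rw [mem_filter, mem_powerset]
    refine ⟨hsub, ?_⟩
    by_contra hcard
    push Not at hcard
    obtain ⟨D, hDs, hDc⟩ := exists_subset_card_eq (Nat.succ_le_of_lt hcard)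
    have hD : A.Shatters D := hs.mono_right hDs
    apply hI
    refine ⟨D, hDs.trans hsub, hDc, fun D' hD' => ?_⟩
    obtain ⟨u, hu, hDu⟩ := hD hD'
    obtain ⟨v, _, rfl⟩ := mem_image.1 hu
    refine ⟨v, fun X hX => ?_⟩
    rw [← hDu, mem_inter]
    have hXF : X ∈ F := hsub (hDs hX)
    simp [htr, hX, hXF]
  calc na W m ≤ A.card := h1
    _ ≤ A.shatterer.card := card_le_card_shatterer A
    _ ≤ _ := card_le_card h2
    _ ≤ (F.card + 1) ^ d := small_subsets F d

end Pool.Helper52.BP
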