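import Pool.Agent.Helper52.BP.Sheet

/-! Row COMB of the sheet `Pool.Agent.Helper52.BP.Sheet` (from CUT, BNS). -/

set_option autoImplicit false

namespace Pool.Helper52.BP

open Finset

theorem st_COMB (hC : ST_CUT) (hB : ST_BNS) : ST_COMB := by
  intro n V T w m q s B W e io jj hq hw hm hT hR he hio hacc
  obtain ⟨al, ph, hal, hph, hind, hsum⟩ := hC n V T w m q s B W e io jj hw hm hT hR he hio
  set β : ℝ := (1 - (1 / 4 : ℝ) ^ q) ^ s * 2 ^ (q * s) with hβ
  have h1 : |∑ u : Fin q → Fin s → Bool, (-1 : ℝ) ^ ones u| ≤ β := by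
    have := hB q s (fun _ _ => 1) hq (by simp) (by simp)
    simp only [prod_const_one, mul_one] at this
    exact this
  have h2 : ∀ la, |∑ u : Fin q → Fin s → Bool, (-1 : ℝ) ^ ones u * ∏ j, ph la j u| ≤ β :=
    fun la => hB q s (ph la) hq (hph la) (hind la)
  have h3 : ∀ u : Fin q → Fin s → Bool,
      (1 : ℝ) = (-1) ^ ones u - 2 * ((-1) ^ ones u * ∑ la, al la * ∏ j, ph la j u) := by
    intro u
    rw [← hsum u, hacc u]
    rcases Nat.even_or_odd (ones u) with h | h
    · have : ones u % 2 = 0 := Nat.even_iff.1 h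
      simp [h.neg_one_pow, this]
    · have : ones u % 2 = 1 := Nat.odd_iff.1 h
      simp [h.neg_one_pow, this]
      norm_num
  have h4 : (2 : ℝ) ^ (q * s) = ∑ u : Fin q → Fin s → Bool, (-1 : ℝ) ^ ones u -
      2 * ∑ la, al la * ∑ u : Fin q → Fin s → Bool, (-1 : ℝ) ^ ones u * ∏ j, ph la j u := by
    have e1 : ∑ u : Fin q → Fin s → Bool, (1 : ℝ) = 2 ^ (q * s) := by
      rw [sum_const, nsmul_eq_mul, mul_one, card_univ]
      simp only [Fintype.card_pi, prod_const, card_univ, Fintype.card_fin, Fintype.card_bool]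
      push_cast
      rw [← pow_mul, mul_comm s q]
    rw [← e1, sum_congr rfl fun u _ => h3 u, sum_sub_distrib, ← mul_sum]
    congr 2
    simp_rw [mul_sum]
    rw [sum_comm]
    exact sum_congr rfl fun la _ => sum_congr rfl fun u _ => by ring
  have hβ0 : 0 ≤ β := (abs_nonneg _).trans h1
  have h5 : |∑ la, al la * ∑ u : Fin q → Fin s → Bool, (-1 : ℝ) ^ ones u * ∏ j, ph la j u| ≤
      (V : ℝ) ^ m * β := by
    refine (abs_sum_le_sum_abs _ _).trans ?_
    have : ∀ la ∈ (univ : Finset (Fin m → Fin V)),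
        |al la * ∑ u : Fin q → Fin s → Bool, (-1 : ℝ) ^ ones u * ∏ j, ph la j u| ≤ β := by
      intro la _
      rw [abs_mul]
      calc _ ≤ 1 * β := mul_le_mul (hal la) (h2 la) (abs_nonneg _) zero_le_one
        _ = β := one_mul _
    refine (sum_le_card_nsmul _ _ _ this).trans ?_
    rw [nsmul_eq_mul, card_univ]
    simp
  have hV : 1 ≤ (V : ℝ) ^ m := by
    have : 0 < V := Fin.pos B.src
    exact one_le_pow₀ (by exact_mod_cast this)
  have h6 : (2 : ℝ) ^ (q * s) ≤ 3 * (V : ℝ) ^ m * β := by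
    have a1 := (abs_le.1 h1).2
    have a2 := (abs_le.1 h5).1
    nlinarith [mul_le_mul_of_nonneg_right hV hβ0]
  have hp : (0 : ℝ) < 2 ^ (q * s) := by positivity
  have h7 : (2 : ℝ) ^ (q * s) * 1 ≤
      (2 : ℝ) ^ (q * s) * (3 * (V : ℝ) ^ m * (1 - (1 / 4 : ℝ) ^ q) ^ s) := by
    calc (2 : ℝ) ^ (q * s) * 1 = 2 ^ (q * s) := mul_one _
      _ ≤ _ := h6
      _ = _ := by rw [hβ]; ring
  exact le_of_mul_le_mul_left h7 hp

end Pool.Helper52.BP
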